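import Pool.Agent.Lib.LW.ChE

/-!
The theorem of Borsuk and Ulam for odd maps that are continuous away from the origin (the proof of
`LX.bu_odd`, from the Tucker type lemma for the prime 2), and its form for the sphere of an
equivalent norm of a normed space and a continuous map to a space of smaller dimension.
-/

set_option autoImplicit false

namespace RN57

open LW

private theorem pow_neg_one (n : ℕ) : ((-1 : ℝ) ^ n) * (-1) ^ n = 1 := by
  rw [← mul_pow]
  norm_num

theorem bu_compl {M : ℕ} {ι : Type} [Fintype ι] (h : M < Fintype.card ι)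
    (G : Fin M → (ι → ℝ) → ℝ) (hc : ∀ j, ContinuousOn (G j) {0}ᶜ)
    (hG : ∀ j v, v ≠ 0 → G j (-v) = -G j v) :
    ∃ v, v ≠ 0 ∧ ∀ j, G j v = 0 := by
  classical
  rcases Nat.eq_zero_or_pos M with hM | hM
  · subst hM
    have : Nonempty ι := Fintype.card_pos_iff.1 h
    exact ⟨1, one_ne_zero, fun j => j.elim0⟩
  by_contra hcon
  push Not at hcon
  have hne : Nonempty (Fin M) := ⟨⟨0, hM⟩⟩
  obtain ⟨e⟩ : Nonempty (Fin (M + 1) ↪ ι) := by
    rw [Function.Embedding.nonempty_iff_card_le]
    simp
    omega
  let T : (ι → ℝ) →ₗ[ℝ] (ι → ℝ) := -LinearMap.id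
  have hTa : ∀ v, T v = -v := fun v => rfl
  have hTi : ∀ (n : ℕ) (v : ι → ℝ) (k : ι), T^[n] v k = (-1) ^ n * v k := by
    intro n
    induction n with
    | zero => intro v k; simp
    | succ n ih =>
      intro v k
      rw [Function.iterate_succ_apply', hTa, Pi.neg_apply, ih, pow_succ]
      ring
  let pt : Fin (M + 1) → ι → ℝ := fun j => Pi.single (e j) 1
  let Q : Set (ι → ℝ) := ⋃ g : Fin (M + 1) → ZMod 2,
    convexHull ℝ (Set.range fun j => T^[(g j).val] (pt j))
  have hQc : IsCompact Q :=
    isCompact_iUnion fun g => Set.Finite.isCompact_convexHull (𝕜 := ℝ) (Set.finite_range _)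
  have hQ0 : ∀ x ∈ Q, x ≠ 0 := by
    intro x hx hx0
    rw [Set.mem_iUnion] at hx
    obtain ⟨g, hg⟩ := hx
    let Φ : (ι → ℝ) →ₗ[ℝ] ℝ :=
      { toFun := fun x => ∑ j, (x (e j) * (-1) ^ (g j).val)
        map_add' := fun x y => by
          rw [← Finset.sum_add_distrib]
          refine Finset.sum_congr rfl fun j _ => ?_
          rw [Pi.add_apply, add_mul]
        map_smul' := fun r x => by
          rw [RingHom.id_apply, smul_eq_mul, Finset.mul_sum]
          refine Finset.sum_congr rfl fun j _ => ?_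
          rw [Pi.smul_apply, smul_mul_assoc, smul_eq_mul] }
    have hΦ : ∀ x, Φ x = ∑ j, (x (e j) * (-1) ^ (g j).val) := fun _ => rfl
    have hsub : convexHull ℝ (Set.range fun j => T^[(g j).val] (pt j)) ⊆ {x | 0 < Φ x} := by
      apply convexHull_min
      · rintro _ ⟨i, rfl⟩
        simp only [Set.mem_ofPred_eq]
        rw [hΦ, Finset.sum_eq_single i]
        · rw [hTi]
          simp only [pt, Pi.single_eq_same, mul_one]
          rw [pow_neg_one]
          exact one_pos
        · intro j _ hj
          rw [hTi]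
          have h1 : e j ≠ e i := fun h => hj (e.injective h)
          simp [pt, h1]
        · intro h
          exact absurd (Finset.mem_univ _) h
      · exact convex_halfSpace_gt Φ.isLinear 0
    have := hsub hg
    rw [hx0] at this
    simp at this
  have hF : ContinuousOn (fun x : ι → ℝ => fun j => G j x) Q :=
    continuousOn_pi.2 fun j => (hc j).mono fun x hx => hQ0 x hx
  obtain ⟨δ, hδ, hδ'⟩ : ∃ δ : ℝ, 0 < δ ∧ ∀ x ∈ Q, δ ≤ ‖fun j => G j x‖ := by
    rcases Q.eq_empty_or_nonempty with hQe | hQe
    · exact ⟨1, one_pos, fun x hx => by rw [hQe] at hx; exact hx.elim⟩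
    · obtain ⟨x, hx, hx'⟩ := hQc.exists_isMinOn hQe hF.norm
      refine ⟨‖fun j => G j x‖, ?_, fun y hy => hx' hy⟩
      rw [norm_pos_iff]
      intro h0
      obtain ⟨j, hj⟩ := hcon x (hQ0 x hx)
      exact hj (congrFun h0 j)
  have hmax : ∀ a : Fin M → ℝ, ∃ i, ∀ j, a j ≤ a i := fun a => Finite.exists_max a
  choose L hL using hmax
  let l : (ι → ℝ) → Fin M := fun x => L fun j => |G j x|
  have hl : ∀ x ∈ Q, δ ≤ |G (l x) x| := by
    intro x hx
    refine (hδ' x hx).trans ?_
    rw [pi_norm_le_iff_of_nonneg (abs_nonneg _)]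
    exact fun j => hL (fun j => |G j x|) j
  have hu := hQc.uniformContinuousOn_of_continuous hF
  rw [Metric.uniformContinuousOn_iff] at hu
  obtain ⟨ε, hε, hε'⟩ := hu δ hδ
  refine tucker M 2 T ?_ pt Q ?_
    (fun x => (if 0 < G (l x) x then 0 else 1, l x)) ?_ ε hε ?_
  · intro x
    funext k
    rw [hTi]
    norm_num
  · intro g
    exact Set.subset_iUnion (fun g : Fin (M + 1) → ZMod 2 =>
      convexHull ℝ (Set.range fun j => T^[(g j).val] (pt j))) g
  · intro x hx
    have hTx : ∀ j, G j (T x) = -G j x := fun j => by rw [hTa, hG j x (hQ0 x hx)]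
    have hlT : l (T x) = l x := by
      simp only [l]
      congr 1
      funext j
      rw [hTx, abs_neg]
    have hne : G (l x) x ≠ 0 := by
      intro h0
      have := hl x hx
      rw [h0, abs_zero] at this
      linarith
    simp only [hlT, hTx]
    refine Prod.ext ?_ rfl
    simp only
    rcases lt_or_gt_of_ne hne with h1 | h1
    · rw [if_pos (by linarith), if_neg (by linarith)]
      decide
    · rw [if_neg (by linarith), if_pos h1]
      decide
  · intro x hx y hy hxy h2
    simp only at h2 ⊢
    have h6 : dist (G (l x) x) (G (l x) y) < δ :=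
      lt_of_le_of_lt (dist_le_pi_dist (fun j => G j x) (fun j => G j y) (l x)) (hε' x hx y hy hxy)
    rw [Real.dist_eq] at h6
    have h7 := hl x hx
    have h8 := hl y hy
    rw [← h2] at h8 ⊢
    rw [abs_lt] at h6
    by_cases h3 : 0 < G (l x) x
    · rw [abs_of_pos h3] at h7
      rw [if_pos h3, if_pos (by linarith)]
    · rw [abs_of_nonpos (not_lt.1 h3)] at h7
      rw [if_neg h3, if_neg (by linarith)]

/-- Let `N` be an equivalent norm of `X`, let `Y` have finite dimension smaller than that of `X` and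
`F : X → Y` be continuous; then `F u = F (-u)` for some `u` with `N u = r`. -/
theorem bu_norm {X Y : Type*} [NormedAddCommGroup X] [NormedSpace ℝ X] [NormedAddCommGroup Y]
    [NormedSpace ℝ Y] [FiniteDimensional ℝ Y] (N : Seminorm ℝ X) (C : ℝ)
    (hN : ∀ x, N x ≤ C * ‖x‖) (hN0 : ∀ x, N x = 0 → x = 0)
    (hrank : ¬ Module.rank ℝ X ≤ (Module.finrank ℝ Y : ℕ)) (F : X → Y) (hF : Continuous F)
    (r : ℝ) (hr : 0 < r) : ∃ u, N u = r ∧ F u = F (-u) := by
  classical
  set M := Module.finrank ℝ Y with hM
  have h1 : ((M + 1 : ℕ) : Cardinal) ≤ Module.rank ℝ X := by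
    rw [not_le] at hrank
    have := Cardinal.add_one_le_of_lt hrank
    exact_mod_cast this
  obtain ⟨T, hT⟩ := Module.le_rank_iff_exists_linearMap.1 h1
  have hTc : Continuous T := LinearMap.continuous_of_finiteDimensional T
  have hNc : Continuous N := by
    have : ∀ x y, |N x - N y| ≤ (|C| + 1) * ‖x - y‖ := by
      intro x y
      have h2 := abs_sub_map_le_sub N x y
      have h3 := hN (x - y)
      have h4 : C * ‖x - y‖ ≤ (|C| + 1) * ‖x - y‖ :=
        mul_le_mul_of_nonneg_right (by linarith [le_abs_self C]) (norm_nonneg _)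
      linarith
    refine (LipschitzWith.of_dist_le_mul (K := ⟨|C| + 1, by positivity⟩) fun x y => ?_).continuous
    rw [Real.dist_eq, dist_eq_norm]
    exact this x y
  let e : Y ≃L[ℝ] (Fin M → ℝ) := (Module.finBasis ℝ Y).equivFunL
  have hpos : ∀ v : Fin (M + 1) → ℝ, v ≠ 0 → 0 < N (T v) := by
    intro v hv
    refine lt_of_le_of_ne (apply_nonneg N _) fun h0 => hv ?_
    exact hT (by rw [hN0 _ h0.symm, map_zero])
  let U : (Fin (M + 1) → ℝ) → X := fun v => (r / N (T v)) • T v
  have hUc : ContinuousOn U {0}ᶜ := by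
    refine ContinuousOn.smul (continuousOn_const.div (hNc.comp hTc).continuousOn ?_)
      hTc.continuousOn
    intro v hv
    exact (hpos v hv).ne'
  have hUn : ∀ v, U (-v) = -U v := by
    intro v
    simp only [U, map_neg, map_neg_eq_map, smul_neg]
  obtain ⟨v, hv, hz⟩ := bu_compl (M := M) (ι := Fin (M + 1)) (by simp)
    (fun j v => e (F (U v) - F (-U v)) j) (by
      intro j
      have h5 : ContinuousOn (fun v => F (U v) - F (-U v)) {0}ᶜ :=
        (hF.comp_continuousOn hUc).sub (hF.comp_continuousOn hUc.neg)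
      exact (continuous_apply j).comp_continuousOn (e.continuous.comp_continuousOn h5)) (by
      intro j v _
      simp only [hUn, neg_neg]
      rw [← neg_sub (F (U v)) (F (-U v)), map_neg, Pi.neg_apply])
  refine ⟨U v, ?_, ?_⟩
  · simp only [U]
    rw [map_smul_eq_mul, Real.norm_of_nonneg (div_nonneg hr.le (hpos v hv).le)]
    field_simp [(hpos v hv).ne']
  · have h6 : e (F (U v) - F (-U v)) = 0 := funext hz
    rw [map_eq_zero_iff e e.injective] at h6
    exact sub_eq_zero.1 h6

end RN57
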