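import Pool.Agent.Lib.RN57.BU

/-!
Basic facts on equivalent norms, uniformly continuous almost uncollapsed maps, and coarse solvent
maps; the finite-dimensional cases (from the theorem of Borsuk and Ulam).
-/

set_option autoImplicit false

namespace RN57

variable {X Y : Type*} [NormedAddCommGroup X] [NormedSpace ℝ X]
  [NormedAddCommGroup Y] [NormedSpace ℝ Y]

/-- `N` is an equivalent norm on the normed space `X`. -/
def IsEquivNorm (N : Seminorm ℝ X) : Prop :=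
  ∃ c C : ℝ, 0 < c ∧ 0 < C ∧ ∀ x, c * ‖x‖ ≤ N x ∧ N x ≤ C * ‖x‖

/-- `f : (X, N) → Y` is uniformly continuous: `ω_f(t) → 0` for `t → 0`. -/
def UnifCont (N : Seminorm ℝ X) (f : X → Y) : Prop :=
  ∀ ε > 0, ∃ δ > 0, ∀ x y, N (x - y) ≤ δ → ‖f x - f y‖ ≤ ε

/-- `f : (X, N) → Y` is almost uncollapsed: for some `t > 0` the images of points at distance
exactly `t` are at distance at least some `ρ > 0`. -/
def AlmostUncollapsed (N : Seminorm ℝ X) (f : X → Y) : Prop :=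
  ∃ t > 0, ∃ ρ > 0, ∀ x y, N (x - y) = t → ρ ≤ ‖f x - f y‖

/-- `f : (X, N) → Y` is coarse: `ω_f(t) < ∞` for every `t`. -/
def Coarse (N : Seminorm ℝ X) (f : X → Y) : Prop :=
  ∀ t : ℝ, ∃ K : ℝ, ∀ x y, N (x - y) ≤ t → ‖f x - f y‖ ≤ K

/-- `f : (X, N) → Y` is solvent: for every `n` there is `R > 0` such that the images of points at
distance in `[R, R + n]` are at distance more than `n`. -/
def Solvent (N : Seminorm ℝ X) (f : X → Y) : Prop :=
  ∀ n : ℕ, ∃ R > 0, ∀ x y, R ≤ N (x - y) → N (x - y) ≤ R + n → (n : ℝ) < ‖f x - f y‖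

lemma equiv_compare {N₁ N₂ : Seminorm ℝ X} (h1 : IsEquivNorm N₁) (h2 : IsEquivNorm N₂) :
    ∃ α β : ℝ, 0 < α ∧ 0 < β ∧ ∀ x, α * N₂ x ≤ N₁ x ∧ N₁ x ≤ β * N₂ x := by
  obtain ⟨c₁, C₁, hc₁, hC₁, hN₁⟩ := h1
  obtain ⟨c₂, C₂, hc₂, hC₂, hN₂⟩ := h2
  refine ⟨c₁ / C₂, C₁ / c₂, by positivity, by positivity, fun x => ⟨?_, ?_⟩⟩
  · calc (c₁ / C₂) * N₂ x ≤ (c₁ / C₂) * (C₂ * ‖x‖) :=
          mul_le_mul_of_nonneg_left (hN₂ x).2 (by positivity)
      _ = c₁ * ‖x‖ := by field_simp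
      _ ≤ N₁ x := (hN₁ x).1
  · calc N₁ x ≤ C₁ * ‖x‖ := (hN₁ x).2
      _ = (C₁ / c₂) * (c₂ * ‖x‖) := by field_simp
      _ ≤ (C₁ / c₂) * N₂ x := mul_le_mul_of_nonneg_left (hN₂ x).1 (by positivity)

/-- A linear embedding: `a * N x ≤ ‖T x‖ ≤ b * N x`. -/
def LinEmb (N : Seminorm ℝ X) (T : X →ₗ[ℝ] Y) : Prop :=
  ∃ a b : ℝ, 0 < a ∧ 0 < b ∧ ∀ x, a * N x ≤ ‖T x‖ ∧ ‖T x‖ ≤ b * N x

/-- An injective linear map from a finite-dimensional space is an embedding for every norm. -/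
lemma linEmb_of_injective [FiniteDimensional ℝ X] {N : Seminorm ℝ X} (hN : IsEquivNorm N)
    (T : X →ₗ[ℝ] Y) (hT : Function.Injective T) : LinEmb N T := by
  obtain ⟨c, C, hc, hC, hNc⟩ := hN
  obtain ⟨K, hK, hA⟩ := T.exists_antilipschitzWith (LinearMap.ker_eq_bot.2 hT)
  have hKr : (0 : ℝ) < K := by exact_mod_cast hK
  have h1 : ∀ x, ‖x‖ ≤ K * ‖T x‖ := by
    intro x
    have := hA.le_mul_dist x 0
    simpa [dist_eq_norm] using this
  let T' : X →L[ℝ] Y := ⟨T, T.continuous_of_finiteDimensional⟩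
  refine ⟨(C * K)⁻¹, (‖T'‖ + 1) / c, by positivity, by positivity, fun x => ⟨?_, ?_⟩⟩
  · calc (C * K)⁻¹ * N x ≤ (C * K)⁻¹ * (C * ‖x‖) :=
          mul_le_mul_of_nonneg_left (hNc x).2 (by positivity)
      _ ≤ (C * K)⁻¹ * (C * (K * ‖T x‖)) := by gcongr; exact h1 x
      _ = ‖T x‖ := by field_simp
  · calc ‖T x‖ = ‖T' x‖ := rfl
      _ ≤ ‖T'‖ * ‖x‖ := T'.le_opNorm x
      _ ≤ (‖T'‖ + 1) * ‖x‖ := mul_le_mul_of_nonneg_right (by linarith) (norm_nonneg _)
      _ = (‖T'‖ + 1) / c * (c * ‖x‖) := by field_simp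
      _ ≤ (‖T'‖ + 1) / c * N x := mul_le_mul_of_nonneg_left (hNc x).1 (by positivity)

lemma equiv_zero {N : Seminorm ℝ X} (hN : IsEquivNorm N) (x : X) (h : N x = 0) : x = 0 := by
  obtain ⟨c, C, hc, hC, hNc⟩ := hN
  have h1 := (hNc x).1
  rw [h] at h1
  have h2 : ‖x‖ ≤ 0 := by
    by_contra h3
    push Not at h3
    have := mul_pos hc h3
    linarith
  exact norm_le_zero_iff.1 h2

omit [NormedSpace ℝ Y] in
/-- Uniform continuity for an equivalent norm implies continuity. -/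
lemma UnifCont.continuous {N : Seminorm ℝ X} (hN : IsEquivNorm N) {f : X → Y}
    (hf : UnifCont N f) : Continuous f := by
  obtain ⟨c, C, hc, hC, hNc⟩ := hN
  rw [Metric.continuous_iff]
  intro y ε hε
  obtain ⟨δ, hδ, h⟩ := hf (ε / 2) (by positivity)
  refine ⟨δ / C, by positivity, fun x hx => ?_⟩
  rw [dist_eq_norm] at hx ⊢
  have h1 : N (x - y) ≤ δ := by
    calc N (x - y) ≤ C * ‖x - y‖ := (hNc _).2
      _ ≤ C * (δ / C) := mul_le_mul_of_nonneg_left hx.le hC.le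
      _ = δ := by field_simp
  have := h x y h1
  linarith

/-- If `Y` is finite-dimensional and there is a uniformly continuous almost uncollapsed map
`(X, N) → Y`, then `dim X ≤ dim Y`. -/
lemma rank_le_of_unif [FiniteDimensional ℝ Y] {N : Seminorm ℝ X} (hN : IsEquivNorm N)
    {f : X → Y} (hf : UnifCont N f) (hu : AlmostUncollapsed N f) :
    Module.rank ℝ X ≤ (Module.finrank ℝ Y : ℕ) := by
  by_contra hrank
  obtain ⟨t, ht, ρ, hρ, h⟩ := hu
  have hfc := hf.continuous hN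
  have hz := equiv_zero hN
  obtain ⟨c, C, hc, hC, hNc⟩ := hN
  obtain ⟨u, hu1, hu2⟩ := bu_norm N C (fun x => (hNc x).2) hz hrank f hfc (t / 2) (by positivity)
  have h1 : N (u - -u) = t := by
    rw [sub_neg_eq_add, ← two_smul ℝ u, map_smul_eq_mul, Real.norm_of_nonneg (by norm_num), hu1]
    ring
  have h2 := h u (-u) h1
  rw [hu2, sub_self, norm_zero] at h2
  linarith

/-- If `Y` is finite-dimensional and there is a coarse solvent map `(X, N) → Y`, then
`dim X ≤ dim Y`. -/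
lemma rank_le_of_coarse [FiniteDimensional ℝ Y] {N : Seminorm ℝ X} (hN : IsEquivNorm N)
    {f : X → Y} (hf : Coarse N f) (hs : Solvent N f) :
    Module.rank ℝ X ≤ (Module.finrank ℝ Y : ℕ) := by
  by_contra hrank
  have hz := equiv_zero hN
  obtain ⟨c, C, hc, hC, hNc⟩ := hN
  obtain ⟨K, hK⟩ := hf 1
  have hK0 : 0 ≤ K := le_trans (norm_nonneg _) (hK 0 0 (by simp))
  -- a continuous map at bounded distance
  obtain ⟨F, hF⟩ : ∃ F : C(X, Y), ∀ x, F x ∈ Metric.closedBall (f x) K := by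
    refine exists_continuous_forall_mem_convex_of_local_const
      (fun x => convex_closedBall (f x) K) fun x => ⟨f x, ?_⟩
    filter_upwards [Metric.ball_mem_nhds x (ε := 1 / C) (by positivity)] with y hy
    rw [Metric.mem_closedBall, dist_eq_norm]
    apply hK
    rw [Metric.mem_ball, dist_comm, dist_eq_norm] at hy
    calc N (x - y) ≤ C * ‖x - y‖ := (hNc _).2
      _ ≤ C * (1 / C) := mul_le_mul_of_nonneg_left hy.le hC.le
      _ = 1 := by field_simp
  obtain ⟨n, hn⟩ := exists_nat_ge (2 * K)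
  obtain ⟨R, hR, h⟩ := hs n
  obtain ⟨u, hu1, hu2⟩ := bu_norm N C (fun x => (hNc x).2) hz hrank F F.continuous (R / 2)
    (by positivity)
  have h1 : N (u - -u) = R := by
    rw [sub_neg_eq_add, ← two_smul ℝ u, map_smul_eq_mul, Real.norm_of_nonneg (by norm_num), hu1]
    ring
  have h2 := h u (-u) h1.ge (by rw [h1]; linarith [(Nat.cast_nonneg n : (0 : ℝ) ≤ n)])
  have h3 := hF u
  have h4 := hF (-u)
  rw [Metric.mem_closedBall, dist_eq_norm] at h3 h4
  have h5 : ‖f u - f (-u)‖ ≤ ‖F u - f u‖ + ‖F (-u) - f (-u)‖ := by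
    have : f u - f (-u) = (F (-u) - f (-u)) - (F u - f u) := by rw [hu2]; abel
    rw [this]
    linarith [norm_sub_le (F (-u) - f (-u)) (F u - f u)]
  linarith

/-- A linear embedding of `(X, N)` exists for all equivalent norms if `dim X ≤ dim Y < ∞`. -/
lemma exists_linEmb_of_rank_le [FiniteDimensional ℝ Y]
    (h : Module.rank ℝ X ≤ (Module.finrank ℝ Y : ℕ)) :
    FiniteDimensional ℝ X ∧ ∃ T : X →ₗ[ℝ] Y, Function.Injective T := by
  have hX : FiniteDimensional ℝ X :=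
    Module.rank_lt_aleph0_iff.1 (lt_of_le_of_lt h (Cardinal.natCast_lt_aleph0))
  refine ⟨hX, ?_⟩
  rw [← finrank_le_iff_exists_linearMap]
  rw [← Module.finrank_eq_rank] at h
  exact_mod_cast h

/-- A finite-dimensional space embeds linearly into every infinite-dimensional one. -/
lemma exists_linEmb_of_infinite [FiniteDimensional ℝ X] (hY : ¬ FiniteDimensional ℝ Y) :
    ∃ T : X →ₗ[ℝ] Y, Function.Injective T := by
  have h1 : ((Module.finrank ℝ X : ℕ) : Cardinal) ≤ Module.rank ℝ Y := by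
    by_contra h
    rw [not_le] at h
    exact hY (Module.rank_lt_aleph0_iff.1 (h.trans Cardinal.natCast_lt_aleph0))
  obtain ⟨S, hS⟩ := Module.le_rank_iff_exists_linearMap.1 h1
  exact ⟨S ∘ₗ (Module.finBasis ℝ X).equivFun.toLinearMap,
    hS.comp (Module.finBasis ℝ X).equivFun.injective⟩

end RN57
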